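import Pool.Agent.L0h98.RF.Def

/-!
# Project RF: BGC
-/

set_option autoImplicit false
set_option linter.all false

namespace Pool.Agent.L0h88.RF

open Finset Classical
open Pool.Agent.L0h98.RF
open Pool.Agent.L0h98.GS (Hf Sim Cg eC)
open Pool.Agent.N404.LF (cnt)
open Pool.Agent.H160R2.HF

lemma sum_hf {m : ℕ} (F : Hf m → ℕ) : ∑ x, F x = ∑ i, (F (i, false) + F (i, true)) := by
  rw [Fintype.sum_prod_type]
  refine Finset.sum_congr rfl fun i _ => ?_
  rw [Fintype.sum_bool, add_comm]

lemma cnt_eq {V : Type} {m : ℕ} (a : Hf m → V) (π : Equiv.Perm (Hf m)) (v : V) :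
    cnt a v = ∑ i, ((if a (π (i, false)) = v then 1 else 0) +
      (if a (π (i, true)) = v then 1 else 0)) := by
  unfold cnt
  rw [Finset.card_filter, ← Equiv.sum_comp π, sum_hf]

lemma sz_eq {V : Type} {m : ℕ} (a : Hf m → V) (π : Equiv.Perm (Hf m)) (X : Finset V) :
    sz a X = ∑ i, ((if a (π (i, false)) ∈ X then 1 else 0) +
      (if a (π (i, true)) ∈ X then 1 else 0)) := by
  unfold sz
  have h1 : ∀ v ∈ X, cnt a v = _ := fun v _ => cnt_eq a π v
  rw [Finset.sum_congr rfl h1, Finset.sum_comm]
  refine Finset.sum_congr rfl fun i _ => ?_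
  rw [Finset.sum_add_distrib, Finset.sum_ite_eq, Finset.sum_ite_eq]

lemma half_sz {V : Type} {m : ℕ} (a : Hf m → V) (π : Equiv.Perm (Hf m)) (X : Finset V) :
    2 * eC a π X + cC a π X = sz a X := by
  rw [sz_eq a π X]
  unfold eC cC
  rw [Finset.card_filter, Finset.card_filter, Finset.mul_sum, ← Finset.sum_add_distrib]
  refine Finset.sum_congr rfl fun i _ => ?_
  by_cases h1 : a (π (i, false)) ∈ X <;> by_cases h2 : a (π (i, true)) ∈ X <;> simp [h1, h2]

theorem t_BGC : S_BGC := by
  intro V _ inst m a π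
  obtain rfl : inst = (fun a b => Classical.propDecidable (a = b)) := Subsingleton.elim _ _
  refine ⟨fun v => ?_, fun X => ?_, fun X => ?_, fun X => half_sz a π X, ?_⟩
  · rw [cnt_eq a π v, Finset.sum_add_distrib]
    unfold OrGraph.deg
    rw [Finset.card_filter, Finset.card_filter]
    congr 1
  · unfold OrGraph.cut cC
    congr 1
  · unfold ins eC
    congr 1
  · intro hS hF
    obtain ⟨φ, hφ, hb⟩ := hF
    set t : Fin m → V := fun i => a (π (i, false)) with ht
    set h : Fin m → V := fun i => a (π (i, true)) with hh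
    have hS1 : ∀ i, t i ≠ h i := hS.1
    have hS2 : ∀ i j, s(t i, h i) = s(t j, h j) → i = j := fun i j hij => hS.2 hij
    have hadj : ∀ u v, (Cg a π).Adj u v ↔
        u ≠ v ∧ ((∃ i, u = t i ∧ v = h i) ∨ ∃ i, v = t i ∧ u = h i) := by
      intro u v
      unfold Cg
      rw [SimpleGraph.fromRel_adj]
    let g : V → V → ℤ := fun u v => ∑ i, if t i = u ∧ h i = v then φ i else 0
    have hg0 : ∀ u v, (¬ ∃ i, u = t i ∧ v = h i) → g u v = 0 := by
      intro u v hn
      refine Finset.sum_eq_zero fun i _ => ?_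
      rw [if_neg]
      rintro ⟨h1, h2⟩
      exact hn ⟨i, h1.symm, h2.symm⟩
    have hg1 : ∀ i, g (t i) (h i) = φ i := by
      intro i
      have : g (t i) (h i) = ∑ j, if j = i then φ j else 0 := by
        refine Finset.sum_congr rfl fun j _ => ?_
        refine if_congr ⟨fun hj => ?_, fun hj => by rw [hj]; exact ⟨rfl, rfl⟩⟩ rfl rfl
        exact hS2 j i (by rw [hj.1, hj.2])
      rw [this, Finset.sum_ite_eq' univ i φ, if_pos (mem_univ _)]
    have hg2 : ∀ i, g (h i) (t i) = 0 := by
      intro i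
      refine hg0 _ _ ?_
      rintro ⟨j, h1, h2⟩
      have h3 := hS2 i j (by rw [← h1, ← h2, Sym2.eq_swap])
      subst h3
      exact hS1 i h2
    have hrow : ∀ u, ∑ v, g u v = ∑ i, if t i = u then φ i else 0 := by
      intro u
      rw [Finset.sum_comm]
      refine Finset.sum_congr rfl fun i _ => ?_
      by_cases hu : t i = u
      · simp [hu]
      · simp [hu]
    have hcol : ∀ u, ∑ v, g v u = ∑ i, if h i = u then φ i else 0 := by
      intro u
      rw [Finset.sum_comm]
      refine Finset.sum_congr rfl fun i _ => ?_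
      by_cases hu : h i = u
      · simp [hu]
      · simp [hu]
    refine ⟨fun u v => g u v - g v u, fun u v => by ring, ?_, ?_, ?_⟩
    · intro u v huv
      rw [hadj] at huv
      obtain ⟨hne, ⟨i, rfl, rfl⟩ | ⟨i, rfl, rfl⟩⟩ := huv
      · simp only [hg1, hg2, sub_zero]
        exact hb i
      · simp only [hg1, hg2, zero_sub, abs_neg]
        exact hb i
    · intro u v huv
      rw [hadj] at huv
      by_cases hne : u = v
      · subst hne
        simp
      · have h1 : ¬ ∃ i, u = t i ∧ v = h i := fun hx => huv ⟨hne, Or.inl hx⟩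
        have h2 : ¬ ∃ i, v = t i ∧ u = h i := fun hx => huv ⟨hne, Or.inr hx⟩
        simp only [hg0 _ _ h1, hg0 _ _ h2, sub_zero]
    · intro u
      rw [Finset.sum_sub_distrib, hrow, hcol, sub_eq_zero]
      have h1 := hφ u
      rw [Finset.sum_filter, Finset.sum_filter] at h1
      exact h1

end Pool.Agent.L0h88.RF
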