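import Pool.Agent.L0h98.RF.Def

/-!
# Project RF: CUB
-/

set_option autoImplicit false
set_option linter.all false

namespace Pool.Agent.L0h88.RF

open Finset Classical
open Pool.Agent.L0h98.RF
open Pool.Agent.H160R2.HF

lemma sig_iff {V : Type} {n : V → ℕ} (x y : Σ v, Fin (n v)) :
    x = y ↔ x.1 = y.1 ∧ (x.2 : ℕ) = y.2 := by
  constructor
  · rintro rfl
    exact ⟨rfl, rfl⟩
  · obtain ⟨v, i⟩ := x
    obtain ⟨w, j⟩ := y
    rintro ⟨h1, h2⟩
    simp only at h1
    subst h1
    simp only at h2
    rw [Fin.ext h2]

/-- points with a given position -/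
lemma card_pos {V : Type} [Fintype V] [DecidableEq V] (n : V → ℕ) (v : V) (k : ℕ) :
    (∑ y : Σ v, Fin (n v), if y.1 = v ∧ (y.2 : ℕ) = k then 1 else 0) =
      if k < n v then 1 else 0 := by
  by_cases hk : k < n v
  · rw [if_pos hk, Finset.sum_eq_single (⟨v, ⟨k, hk⟩⟩ : Σ v, Fin (n v))]
    · simp
    · intro y _ hy
      rw [if_neg]
      rintro ⟨h1, h2⟩
      exact hy ((sig_iff _ _).2 ⟨h1, h2⟩)
    · intro h
      exact absurd (mem_univ _) h
  · rw [if_neg hk]
    refine Finset.sum_eq_zero fun y _ => ?_
    rw [if_neg]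
    rintro ⟨h1, h2⟩
    apply hk
    have := y.2.2
    rw [h2, h1] at this
    exact this

/-- the number of labels -/
lemma cj (d j : ℕ) (hd : 3 ≤ d) (hj : j < d - 2) :
    ((range d).filter fun i => min (i - 1) (d - 3) = j).card + (if j < d - 3 then 1 else 0) +
      (if 1 ≤ j then 1 else 0) = 3 := by
  by_cases h3 : d = 3
  · subst h3
    have : j = 0 := by omega
    subst this
    decide
  · by_cases hj0 : j = 0
    · subst hj0
      have e1 : ((range d).filter fun i => min (i - 1) (d - 3) = 0) = {0, 1} := by
        ext i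
        simp only [mem_filter, mem_range, mem_insert, mem_singleton]
        omega
      rw [e1, if_pos (by omega), if_neg (by omega)]
      rfl
    · by_cases hj1 : j = d - 3
      · have e1 : ((range d).filter fun i => min (i - 1) (d - 3) = j) = {d - 2, d - 1} := by
          ext i
          simp only [mem_filter, mem_range, mem_insert, mem_singleton]
          omega
        rw [e1, if_neg (by omega), if_pos (by omega), Finset.card_pair (by omega)]
      · have e1 : ((range d).filter fun i => min (i - 1) (d - 3) = j) = {j + 1} := by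
          ext i
          simp only [mem_filter, mem_range, mem_insert, mem_singleton]
          omega
        rw [e1, if_pos (by omega), if_pos (by omega), Finset.card_singleton]

section lab
variable {V E : Type} [Fintype V] [Fintype E] [DecidableEq V] [DecidableEq E] (B : OrGraph V E)

/-- the end of a half-edge -/
def en (x : E × Bool) : V := if x.2 then B.h x.1 else B.t x.1

lemma deg_def (v : V) : B.deg univ v =
    (∑ e, if B.t e = v then 1 else 0) + ∑ e, if B.h e = v then 1 else 0 := by
  unfold OrGraph.deg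
  rw [Finset.card_filter, Finset.card_filter]

lemma deg_eq (v : V) : B.deg univ v = (univ.filter fun x : E × Bool => en B x = v).card := by
  unfold OrGraph.deg
  rw [Finset.card_filter, Finset.card_filter, Finset.card_filter, Fintype.sum_prod_type,
    ← Finset.sum_add_distrib]
  refine Finset.sum_congr rfl fun e _ => ?_
  rw [Fintype.sum_bool, add_comm]
  simp [en]

lemma lab_count {lab : E × Bool → ℕ} (hl : Lab B lab) (v : V) (P : ℕ → Prop)
    [DecidablePred P] :
    (univ.filter fun x : E × Bool => en B x = v ∧ P (lab x)).card =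
      ((range (B.deg univ v)).filter P).card := by
  have h1 : range (B.deg univ v) = (univ.filter fun x : E × Bool => en B x = v).image lab := by
    apply Finset.eq_of_subset_of_card_le
    · intro j hj
      obtain ⟨x, hx, -⟩ := hl v j (mem_range.1 hj)
      exact mem_image.2 ⟨x, mem_filter.2 ⟨mem_univ _, hx.1⟩, hx.2⟩
    · rw [card_range, deg_eq]
      exact Finset.card_image_le
  have h2 : ∀ x : E × Bool, en B x = v → lab x < B.deg univ v := by
    intro x hx
    rw [← mem_range, h1]
    exact mem_image.2 ⟨x, mem_filter.2 ⟨mem_univ _, hx⟩, rfl⟩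
  refine Finset.card_bij (fun x _ => lab x) ?_ ?_ ?_
  · intro x hx
    obtain ⟨hx1, hx2⟩ := (mem_filter.1 hx).2
    exact mem_filter.2 ⟨mem_range.2 (h2 x hx1), hx2⟩
  · intro x hx y hy hxy
    obtain ⟨hx1, hx2⟩ := (mem_filter.1 hx).2
    obtain ⟨hy1, hy2⟩ := (mem_filter.1 hy).2
    obtain ⟨z, -, hz⟩ := hl v (lab x) (h2 x hx1)
    rw [hz x ⟨hx1, rfl⟩, hz y ⟨hy1, hxy.symm⟩]
  · intro j hj
    obtain ⟨hj1, hj2⟩ := mem_filter.1 hj
    obtain ⟨x, hx, -⟩ := hl v j (mem_range.1 hj1)
    refine ⟨x, mem_filter.2 ⟨mem_univ _, hx.1, ?_⟩, hx.2⟩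
    rw [hx.2]
    exact hj2

end lab

theorem t_CUB : S_CUB := by
  intro V E _ _ iV iE B h3 lab hl
  refine ⟨?_, ?_⟩
  · rintro ⟨v, j, hj⟩
    have hd := h3 v
    have key := cj (B.deg univ v) j hd hj
    have hc := lab_count B hl v (fun i => min (i - 1) (B.deg univ v - 3) = j)
    rw [deg_def (Ex B h3 lab), Fintype.sum_sum_type, Fintype.sum_sum_type]
    have s1 : (∑ e : E, if (Ex B h3 lab).t (Sum.inl e) = ⟨v, ⟨j, hj⟩⟩ then 1 else 0) +
        (∑ e : E, if (Ex B h3 lab).h (Sum.inl e) = ⟨v, ⟨j, hj⟩⟩ then 1 else 0) =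
        ((range (B.deg univ v)).filter fun i => min (i - 1) (B.deg univ v - 3) = j).card := by
      rw [← hc, Finset.card_filter, Fintype.sum_prod_type, ← Finset.sum_add_distrib]
      refine Finset.sum_congr rfl fun e _ => ?_
      rw [Fintype.sum_bool, add_comm]
      congr 1
      · refine if_congr ?_ rfl rfl
        rw [sig_iff]
        simp only [Ex, Sum.elim_inl, en, if_true]
        constructor
        · rintro ⟨h1, h2⟩
          refine ⟨h1, ?_⟩
          rw [← h1]
          exact h2
        · rintro ⟨h1, h2⟩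
          refine ⟨h1, ?_⟩
          rw [h1]
          exact h2
      · refine if_congr ?_ rfl rfl
        rw [sig_iff]
        simp only [Ex, Sum.elim_inl, en, Bool.false_eq_true, if_false]
        constructor
        · rintro ⟨h1, h2⟩
          refine ⟨h1, ?_⟩
          rw [← h1]
          exact h2
        · rintro ⟨h1, h2⟩
          refine ⟨h1, ?_⟩
          rw [h1]
          exact h2
    have s2 : (∑ y : Σ v, Fin (B.deg univ v - 3),
        if (Ex B h3 lab).t (Sum.inr y) = ⟨v, ⟨j, hj⟩⟩ then 1 else 0) =
        if j < B.deg univ v - 3 then 1 else 0 := by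
      rw [← card_pos (fun v => B.deg univ v - 3) v j]
      refine Finset.sum_congr rfl fun y _ => ?_
      refine if_congr ?_ rfl rfl
      rw [sig_iff]
      simp only [Ex, Sum.elim_inr]
    have s3 : (∑ y : Σ v, Fin (B.deg univ v - 3),
        if (Ex B h3 lab).h (Sum.inr y) = ⟨v, ⟨j, hj⟩⟩ then 1 else 0) =
        if 1 ≤ j then 1 else 0 := by
      by_cases hj1 : 1 ≤ j
      · have e1 := card_pos (fun v => B.deg univ v - 3) v (j - 1)
        rw [if_pos (show j - 1 < B.deg univ v - 3 by omega)] at e1
        rw [if_pos hj1]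
        refine (Finset.sum_congr rfl fun y _ => ?_).trans e1
        refine if_congr ?_ rfl rfl
        rw [sig_iff]
        simp only [Ex, Sum.elim_inr]
        constructor
        · rintro ⟨h1, h2⟩
          exact ⟨h1, by omega⟩
        · rintro ⟨h1, h2⟩
          exact ⟨h1, by omega⟩
      · rw [if_neg hj1]
        refine Finset.sum_eq_zero fun y _ => ?_
        rw [if_neg]
        rw [sig_iff]
        simp only [Ex, Sum.elim_inr]
        rintro ⟨h1, h2⟩
        omega
    have e3 : ∀ a b c d : ℕ, (a + b) + (c + d) = (a + c) + b + d := fun a b c d => by ring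
    rw [← s1, ← s2, ← s3] at key
    exact (e3 _ _ _ _).trans key
  · intro hl0 e
    cases e with
    | inl e =>
      intro h
      rw [sig_iff] at h
      exact hl0 e h.1
    | inr y =>
      intro h
      rw [sig_iff] at h
      simp only [Ex, Sum.elim_inr] at h
      omega

end Pool.Agent.L0h88.RF
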